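import Pool.Agent.Q263.HS.Geo

/-!
# Project HS: the chain recurrent points are chain recurrent inside the chain recurrent set
-/

set_option autoImplicit false

open Set Filter Topology

universe v

namespace Q263.HS

open Q263.HR

/-- a closed `ε`-chain through `z` -/
private def Cl {M : Type v} [MetricSpace M] (g : M → M) (z : M) (ε : ℝ) (n : ℕ) (q : ℕ → M) :
    Prop := 0 < n ∧ q 0 = z ∧ q n = z ∧ ∀ k < n, dist (g (q k)) (q (k + 1)) < ε

private theorem chainRec_iff {M : Type v} [MetricSpace M] [CompactSpace M] (g : M → M)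
    (Λ : Set M) (z : M) : ChainRec g Λ z ↔
      ∀ ε > 0, ∃ (n : ℕ) (q : ℕ → M), Cl g z ε n q ∧ ∀ k, q k ∈ Λ := by
  constructor
  · intro h ε hε
    obtain ⟨n, q, h0, h1, h2, h3, h4⟩ := h {p : M × M | dist p.1 p.2 < ε}
      (isOpen_lt (by fun_prop) (by fun_prop)) (fun x => by simpa using hε)
    exact ⟨n, q, ⟨h0, h1, h2, h4⟩, h3⟩
  · intro h V hV hd
    have hu : V ∈ uniformity M := by
      rw [compactSpace_uniformity]
      rw [Filter.mem_iSup]
      intro x
      exact hV.mem_nhds (hd x)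
    obtain ⟨ε, hε, hV'⟩ := Metric.mem_uniformity_dist.mp hu
    obtain ⟨n, q, ⟨h0, h1, h2, h3⟩, h4⟩ := h ε hε
    exact ⟨n, q, h0, h1, h2, h4, fun k hk => hV' (h3 k hk)⟩

/-- the perturbation of a chain -/
private theorem modulus {M : Type v} [MetricSpace M] [CompactSpace M] (g : M → M)
    (hg : Continuous g) (ε : ℝ) (hε : 0 < ε) : ∃ δ > 0, ∀ (n : ℕ) (p r : ℕ → M),
      (∀ k < n, dist (g (r k)) (r (k + 1)) < δ) → (∀ k ≤ n, dist (p k) (r k) < δ) →
      ∀ k < n, dist (g (p k)) (p (k + 1)) < ε := by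
  have hu : UniformContinuous g := CompactSpace.uniformContinuous_of_continuous hg
  obtain ⟨δ, hδ, h⟩ := Metric.uniformContinuous_iff.mp hu (ε / 2) (by linarith)
  refine ⟨min δ (ε / 4), lt_min hδ (by linarith), fun n p r hr hp k hk => ?_⟩
  have h1 : dist (g (p k)) (g (r k)) < ε / 2 := h (lt_of_lt_of_le (hp k hk.le) (min_le_left _ _))
  have h2 : dist (g (r k)) (r (k + 1)) < ε / 4 := lt_of_lt_of_le (hr k hk) (min_le_right _ _)
  have h3 : dist (p (k + 1)) (r (k + 1)) < ε / 4 :=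
    lt_of_lt_of_le (hp (k + 1) hk) (min_le_right _ _)
  have h4 : dist (g (p k)) (p (k + 1)) ≤ dist (g (p k)) (g (r k)) + dist (g (r k)) (r (k + 1)) +
      dist (r (k + 1)) (p (k + 1)) := dist_triangle4 _ _ _ _
  rw [dist_comm (r (k + 1))] at h4
  linarith

/-- the points of the closed `ε`-chains through `z` -/
private def Y {M : Type v} [MetricSpace M] (g : M → M) (z : M) (ε : ℝ) : Set M :=
  {x | ∃ (n : ℕ) (q : ℕ → M), Cl g z ε n q ∧ ∃ i ≤ n, x = q i}

private theorem rot {M : Type v} [MetricSpace M] (g : M → M) (z : M) (ε : ℝ) (x : M)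
    (hx : x ∈ Y g z ε) : ∃ (n : ℕ) (r : ℕ → M), 0 < n ∧ r 0 = x ∧ r n = x ∧
      ∀ k < n, dist (g (r k)) (r (k + 1)) < ε := by
  obtain ⟨n, q, ⟨h0, h1, h2, h3⟩, i, hi, rfl⟩ := hx
  have hq : ∀ i ≤ n, q (i % n) = q i := by
    intro i hi
    rcases Nat.lt_or_eq_of_le hi with h | h
    · rw [Nat.mod_eq_of_lt h]
    · subst h
      rw [Nat.mod_self, h1, h2]
  have hp : ∀ k, dist (g (q (k % n))) (q ((k + 1) % n)) < ε := by
    intro k
    have hk : k % n < n := Nat.mod_lt _ h0
    have e : q ((k + 1) % n) = q (k % n + 1) := by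
      rw [← Nat.mod_add_mod, hq _ hk]
    rw [e]
    exact h3 _ hk
  refine ⟨n, fun k => q ((i + k) % n), h0, ?_, ?_, fun k _ => ?_⟩
  · simpa using hq i hi
  · simpa using hq i hi
  · exact hp (i + k)

private theorem limit {M : Type v} [MetricSpace M] [CompactSpace M] (g : M → M)
    (hg : Continuous g) (z x : M) (hx : ∀ ε > 0, x ∈ closure (Y g z ε)) :
    ChainRec g univ x := by
  rw [chainRec_iff]
  intro ε hε
  obtain ⟨δ, hδ, h⟩ := modulus g hg ε hε
  obtain ⟨x', hx', hd⟩ := Metric.mem_closure_iff.mp (hx δ hδ) δ hδ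
  obtain ⟨n, r, h0, h1, h2, h3⟩ := rot g z δ x' hx'
  refine ⟨n, fun k => if k = 0 ∨ k = n then x else r k, ⟨h0, by simp, by simp, ?_⟩,
    fun _ => mem_univ _⟩
  refine h n _ r h3 (fun k hk => ?_)
  by_cases hk' : k = 0 ∨ k = n
  · have : r k = x' := by
      rcases hk' with h | h
      · rw [h, h1]
      · rw [h, h2]
    simp only [hk', if_true]
    rw [this]
    exact hd
  · simp only [hk', if_false, dist_self]
    exact hδ

theorem crr : S_CRR.{v} := by
  intro M _ _ g hg z hz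
  have hzc := (chainRec_iff g univ z).mp hz
  have hzY : ∀ ε > 0, z ∈ Y g z ε := by
    intro ε hε
    obtain ⟨n, q, h1, -⟩ := hzc ε hε
    exact ⟨n, q, h1, 0, Nat.zero_le _, h1.2.1.symm⟩
  have anti : ∀ ε ε' : ℝ, ε ≤ ε' → Y g z ε ⊆ Y g z ε' := by
    rintro ε ε' h x ⟨n, q, ⟨h0, h1, h2, h3⟩, hi⟩
    exact ⟨n, q, ⟨h0, h1, h2, fun k hk => lt_of_lt_of_le (h3 k hk) h⟩, hi⟩
  rw [chainRec_iff]
  intro ε hε
  obtain ⟨δ, hδ, hmod⟩ := modulus g hg ε hε
  -- the intersection
  let V : ℕ → Set M := fun m => closure (Y g z (1 / ((m : ℝ) + 1)))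
  have hVdir : Directed (· ⊇ ·) V := by
    refine directed_of_isDirected_le (fun i j hij => ?_)
    refine closure_mono (anti _ _ ?_)
    have : (i : ℝ) ≤ j := by exact_mod_cast hij
    gcongr
  have hK : ∀ x ∈ ⋂ i, V i, ChainRec g univ x := by
    intro x hx
    refine limit g hg z x (fun ε' hε' => ?_)
    obtain ⟨m, hm⟩ := exists_nat_one_div_lt hε'
    exact closure_mono (anti _ _ hm.le) (mem_iInter.mp hx m)
  let U : Set M := {y | ∃ x ∈ ⋂ i, V i, dist x y < δ}
  obtain ⟨m, hm⟩ : ∃ m, V m ⊆ U := by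
    refine exists_subset_nhds_of_isCompact' hVdir (fun i => isClosed_closure.isCompact)
      (fun i => isClosed_closure) (fun x hx => ?_)
    refine mem_of_superset (Metric.ball_mem_nhds x hδ) (fun y hy => ⟨x, hx, ?_⟩)
    rw [dist_comm]
    exact hy
  have hε' : (0 : ℝ) < min δ (1 / ((m : ℝ) + 1)) := lt_min hδ (by positivity)
  obtain ⟨n, q, hq, -⟩ := hzc _ hε'
  have hqY : ∀ k ≤ n, ∃ x : M, ChainRec g univ x ∧ dist x (q k) < δ := by
    intro k hk
    have h1 : q k ∈ V m := subset_closure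
      (anti _ _ (min_le_right _ _) ⟨n, q, hq, k, hk, rfl⟩)
    obtain ⟨x, hx, hd⟩ := hm h1
    exact ⟨x, hK x hx, hd⟩
  have : Nonempty M := ⟨z⟩
  choose! p hp1 hp2 using hqY
  obtain ⟨h0, h1, h2, h3⟩ := hq
  refine ⟨n, fun k => if 0 < k ∧ k < n then p k else z, ⟨h0, by simp, by simp, ?_⟩, ?_⟩
  · refine hmod n _ q (fun k hk => lt_of_lt_of_le (h3 k hk) (min_le_left _ _)) (fun k hk => ?_)
    by_cases hk' : 0 < k ∧ k < n
    · simp only [hk', and_self, if_true]
      exact hp2 k hk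
    · simp only [hk', if_false]
      have : q k = z := by
        rcases Nat.eq_zero_or_pos k with h | h
        · rw [h, h1]
        · have : k = n := by
            by_contra hne
            exact hk' ⟨h, lt_of_le_of_ne hk hne⟩
          rw [this, h2]
      rw [this, dist_self]
      exact hδ
  · intro k
    by_cases hk' : 0 < k ∧ k < n
    · simp only [hk', and_self, if_true, mem_ofPred_eq]
      exact hp1 k hk'.2.le
    · simp only [hk', if_false]
      exact hz

end Q263.HS
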